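import Mathlib

/-! Indexed grammars and test sets. -/

set_option autoImplicit false

namespace Pool.Agent.H.MP_8ee1cf_lc

/-- start symbol, rules `A → α`, rules `A → B f`, rules `A f → α`; `inl` nonterminal, `inr` terminal -/
abbrev Gr := ℕ × List (ℕ × List (ℕ ⊕ ℕ)) × List (ℕ × ℕ × ℕ) × List (ℕ × ℕ × List (ℕ ⊕ ℕ))

abbrev Form := List ((ℕ × List ℕ) ⊕ ℕ)

/-- every nonterminal of `α` receives the stack `σ` -/
def att (σ : List ℕ) (α : List (ℕ ⊕ ℕ)) : Form := α.map (Sum.map (fun B => (B, σ)) id)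

def Rw (G : Gr) (A : ℕ) (σ : List ℕ) (β : Form) : Prop :=
  (∃ α, (A, α) ∈ G.2.1 ∧ β = att σ α) ∨ (∃ B f, (A, B, f) ∈ G.2.2.1 ∧ β = [.inl (B, f :: σ)]) ∨
    ∃ f τ α, (A, f, α) ∈ G.2.2.2 ∧ σ = f :: τ ∧ β = att τ α

def Step (G : Gr) (u v : Form) : Prop :=
  ∃ p s A σ β, u = p ++ .inl (A, σ) :: s ∧ v = p ++ β ++ s ∧ Rw G A σ β

def lang (G : Gr) : Set (List ℕ) := {w | Relation.ReflTransGen (Step G) [.inl (G.1, [])] (w.map .inr)}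

def TestSet (L : Set (List ℕ)) (F : List (List ℕ)) : Prop :=
  (∀ w ∈ F, w ∈ L) ∧ ∀ (Δ : Type) [Finite Δ] (g h : ℕ → List Δ),
    (∀ w ∈ L, w.flatMap g = w.flatMap h) ↔ ∀ w ∈ F, w.flatMap g = w.flatMap h

end Pool.Agent.H.MP_8ee1cf_lc
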