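import Pool.Agent.H.MP_c77619_lc.B
import Pool.Agent.H.MP_8ee1cf_lc.Defs

set_option autoImplicit false

namespace Pool.Agent.H.MP_8ee1cf_lc

open Pool.Agent.Lib.helper4.SigLP Pool.Agent.Lib.PR Submodule Sum
open Pool.Agent.H.MP_c77619_lc (nv na na_app nv_app nv_inj Vc vev m5 vm vev_vm vev_sub m5_mem Mem sp Tb gg sc tp five PP fg)

inductive Gn (G : Gr) : Form → List ℕ → Prop
  | nil : Gn G [] []
  | ter {a u w} : Gn G u w → Gn G (inr a :: u) (a :: w)
  | nt {A σ β x u w} : Rw G A σ β → Gn G β x → Gn G u w → Gn G (inl (A, σ) :: u) (x ++ w)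

variable {G : Gr}

theorem Gn.split {u v w} (a : Gn G (u ++ v) w) : ∃ x y, w = x ++ y ∧ Gn G u x ∧ Gn G v y := by
  induction u generalizing w with
  | nil => exact ⟨[], w, rfl, .nil, a⟩
  | cons _ u ih =>
    cases a with
    | ter a => obtain ⟨x, y, rfl, a, b⟩ := ih a; exact ⟨_, _, rfl, .ter a, b⟩
    | nt r c a => obtain ⟨x, y, rfl, a, b⟩ := ih a; exact ⟨_, _, by simp, .nt r c a, b⟩

theorem Gn.app {u v x y} (a : Gn G u x) (b : Gn G v y) : Gn G (u ++ v) (x ++ y) := by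
  induction a with
  | nil => exact b
  | ter _ a => exact .ter a
  | nt r c _ _ a => exact List.append_assoc .. ▸ .nt r c a

theorem Gn.one {A σ β x} (r : Rw G A σ β) (a : Gn G β x) : Gn G [inl (A, σ)] x := by simpa using Gn.nt r a .nil

theorem gn_iff {u w} : Relation.ReflTransGen (Step G) u (w.map inr) ↔ Gn G u w := by
  refine ⟨fun a => ?_, fun a => ?_⟩
  · refine a.head_induction_on ?_ ?_
    · clear * - w
      induction w with
      | nil => exact .nil
      | cons _ _ a => exact .ter a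
    rintro _ _ ⟨p, s, A, σ, β, rfl, rfl, r⟩ - d
    obtain ⟨_, z, rfl, d, c⟩ := d.split
    obtain ⟨x, y, rfl, a, b⟩ := d.split
    exact List.append_assoc .. ▸ a.app (.nt r b c)
  · have : ∀ p s, Relation.ReflTransGen (Step G) (p ++ u ++ s) (p ++ w.map inr ++ s) := by
      induction a with
      | nil => exact fun _ _ => .refl
      | @ter c _ _ _ a => exact fun p s => by have := a (p ++ [inr c]) s; simpa using this
      | nt r _ _ a b =>
        exact fun p s => .head ⟨p, _, _, _, _, by simp; rfl, rfl, r⟩ ((a ..).trans (by simpa using b (p ++ _) s))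
    simpa using this [] []

def lv (a : ℕ) : Vc := (List.range 5).map fun j => [[2 * (5 * a + j)]]
def vv (m : ℕ) : Vc := (List.range 5).map fun j => [[2 * (5 * m + j) + 1]]
def un : Vc := [[[]], [[]], [], [[]], []]
def cw (w : List ℕ) : Vc := w.foldr (fun a u => vm (lv a) u) un
def pr (ge : ℕ → List Vc) (α : List (ℕ ⊕ ℕ)) : List Vc :=
  α.foldr (fun y l => (y.elim ge fun a => [lv a]).flatMap fun u => l.map (vm u)) [un]
def sb (s : ℕ → LP) (i : ℕ) : LP := if i % 2 = 0 then [[i]] else s (i / 2)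

theorem vev_lv (x a) : vev x (lv a) = fun j : Fin 5 => x (2 * (5 * a + j)) := by funext j; simp [vev, lv]
theorem vev_vv (x a) : vev x (vv a) = fun j : Fin 5 => x (2 * (5 * a + j) + 1) := by funext j; simp [vev, vv]
theorem vev_un (x) : vev x un = ![1, 1, 0, 1, 0] := by funext j; fin_cases j <;> simp [vev, un]
theorem m5_un (y) : m5 y ![1, 1, 0, 1, 0] = y := by funext j; fin_cases j <;> simp [m5]
theorem cw_app (x u v) : vev x (cw (u ++ v)) = m5 (vev x (cw u)) (vev x (cw v)) := by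
  induction u with
  | nil => funext j; fin_cases j <;> simp [cw, vev_un, m5]
  | cons a u ih =>
    simp only [cw, List.cons_append, List.foldr_cons, vev_vm] at ih ⊢
    rw [ih]
    funext j; fin_cases j <;> simp [m5] <;> ring
theorem cw_congr {x y : ℕ → ℚ} (h : ∀ i, x (2 * i) = y (2 * i)) (w) : vev x (cw w) = vev y (cw w) := by
  induction w <;> simp_all [cw, vev_un, vev_vm, vev_lv]

def Cert (G : Gr) (F : List (List ℕ)) (T : Tb) (N n : ℕ) : Prop :=
  (∀ D < N, ∀ t < N + 1, (gg T D t).length < n) ∧ (∀ u ∈ gg T G.1 0, Mem (F.map cw) u) ∧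
  (∀ r ∈ G.2.1, ∀ t < N + 1, ∀ u ∈ pr (fun B => gg T B t) r.2, Mem (gg T r.1 t) u) ∧
  (∀ r ∈ G.2.2.1, r.2.2 < N ∧ ∀ t < N + 1, ∀ u ∈ gg T r.2.1 (r.2.2 + 1), ∀ c < n ^ (5 * N),
    Mem (gg T r.1 t) (u.map (sub (sb (sc T n t c))))) ∧
  ∀ r ∈ G.2.2.2, (∀ B ∈ r.2.2.map (Sum.elim id id), B < N) ∧
    ∀ u ∈ pr (fun B => (List.range 5).map fun i => vv (5 * B + i)) r.2.2, Mem (gg T r.1 (r.2.1 + 1)) u

def Pd (x : ℕ → ℚ) (U : ℕ × List ℕ → (Fin 5 → ℚ) → Prop) : Form → (Fin 5 → ℚ) → Prop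
  | [], y => y = vev x un
  | c :: u, y => ∃ a b, y = m5 a b ∧ c.elim (U · a) (fun c => a = vev x (lv c)) ∧ Pd x U u b

theorem pd_pr {x x' U σ ge α y} (e : ∀ i, x' (2 * i) = x (2 * i)) (a : Pd x U (att σ α) y)
    (k : ∀ B, inl B ∈ α → ∀ y, U (B, σ) y → y ∈ sp x' (ge B)) : y ∈ sp x' (pr ge α) := by
  induction α generalizing y with
  | nil => exact subset_span ⟨un, by simp [pr], by cases a; rw [vev_un, vev_un]⟩
  | cons c α ih =>
    obtain ⟨a, b, rfl, c1, c2⟩ := a
    refine m5_mem (s := vev x' '' {u | u ∈ c.elim ge fun a => [lv a]}) ?_ ?_ (ih c2 fun B l => k B (by simp [l]))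
    · rintro _ ⟨u, a, rfl⟩ _ ⟨v, b, rfl⟩
      exact subset_span ⟨_, List.mem_flatMap.2 ⟨u, a, List.mem_map_of_mem b⟩, vev_vm ..⟩
    · obtain B | c := c
      exacts [k B (by simp) a c1, subset_span ⟨_, List.mem_singleton_self _, by rw [c1, vev_lv, vev_lv]; simp [e]⟩]

theorem sound {F T N n} (k : Cert G F T N n) {w} (a : Gn G [inl (G.1, [])] w) (x0) : vev x0 (cw w) ∈ sp x0 (F.map cw) := by
  obtain ⟨k1, k2, k3, k4, k5⟩ := k
  have : ∀ t x, t < N + 1 → ∃ c < n ^ (5 * N), ∀ D < N, sp x (gg T D t) ≤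
      span ℚ (Set.range fun i : Fin 5 => fun j : Fin 5 => ev x (sc T n t c (5 * (5 * D + i) + j))) := fun t x l => by
    choose k a b using fun D => five x (gg T D t)
    obtain ⟨c, c1, c2⟩ := digits_ex n (5 * N) (fun m => k (m / 5) (m % 5)) fun m e =>
      (a ..).trans_lt (k1 _ (by omega) t l)
    refine ⟨c, c1, fun D e => (b D).trans_eq (congrArg _ (congrArg _ (funext₂ fun i j => ?_)))⟩
    rw [sc, show (5 * (5 * D + i) + j) / 5 = 5 * D + i by omega, c2 _ (by omega), show (5 * D + i) / 5 = D by omega,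
      show (5 * D + i) % 5 = i by omega, show (5 * (5 * D + i) + j) % 5 = j by omega, vev]
  choose! ch c1 c2 using this
  let X : List ℕ → ℕ → ℚ := fun γ => γ.rec x0 fun _ γ x i => ev x (sb (sc T n (tp γ) (ch (tp γ) x)) i)
  have e : ∀ γ i, X γ (2 * i) = x0 (2 * i) := fun γ i => by induction γ <;> simp_all [X, sb]
  have t : ∀ {γ}, (∀ f ∈ γ, f < N) → tp γ < N + 1 := by rintro (_ | _) <;> simp +contextual [tp]
  have : ∀ {u w}, Gn G u w → Pd x0 (fun c y => (∀ f ∈ c.2, f < N) → y ∈ sp (X c.2) (gg T c.1 (tp c.2))) u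
      (vev x0 (cw w)) := fun a => by
    induction a with
    | nil => exact Eq.refl (vev x0 un)
    | ter _ a => exact ⟨_, _, vev_vm .., rfl, a⟩
    | nt r _ _ a b =>
      refine ⟨_, _, cw_app .., fun l => ?_, b⟩
      obtain ⟨α, r, rfl⟩ | ⟨B, f, r, rfl⟩ | ⟨f, τ, α, r, rfl, rfl⟩ := r
      · refine span_le.2 ?_ (pd_pr (e _) a fun B _ y c => c l)
        rintro _ ⟨u, a, rfl⟩
        exact (k3 _ r _ (t l) u a).sound _
      · obtain ⟨y, _, a, b, rfl⟩ := a
        rw [a, vev_un, m5_un]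
        refine span_le.2 ?_ (b (List.forall_mem_cons.2 ⟨(k4 _ r).1, l⟩))
        rintro _ ⟨u, a, rfl⟩
        exact vev_sub .. ▸ ((k4 _ r).2 _ (t l) u a _ (c1 _ _ (t l))).sound _
      · have l' := (List.forall_mem_cons.1 l).2
        refine span_le.2 ?_ (pd_pr (ge := fun B => (List.range 5).map fun i => vv (5 * B + i)) (e (f :: τ)) a
          fun B m y c => span_mono ?_ (c2 _ _ (t l') _ ((k5 _ r).1 _ (List.mem_map_of_mem m)) (c l')))
        · rintro _ ⟨u, a, rfl⟩
          exact ((k5 _ r).2 u a).sound _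
        · rintro _ ⟨i, rfl⟩
          refine ⟨_, List.mem_map_of_mem (List.mem_range.2 i.2), (vev_vv ..).trans (funext fun j => ?_)⟩
          simp [X, sb, Nat.mul_add_div]
  obtain ⟨y, _, a, b, rfl⟩ := this a
  rw [a, vev_un, m5_un]
  refine span_le.2 ?_ (b (by simp))
  rintro _ ⟨u, a, rfl⟩
  exact (k2 u a).sound _

theorem test {F T N n} (k : Cert G F T N n) (f : ∀ w ∈ F, w ∈ lang G) : TestSet (lang G) F := by
  refine ⟨f, fun Δ _ g h => ⟨fun a w b => a w (f w b), fun a w b => ?_⟩⟩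
  obtain ⟨e, he⟩ := exists_injective_nat Δ
  let mu : List ℕ → Fin 5 → ℚ := fun w => ![1, na ((w.flatMap g).map e), nv ((w.flatMap g).map e),
    na ((w.flatMap h).map e), nv ((w.flatMap h).map e)]
  let x : ℕ → ℚ := fun i => mu [i / 2 / 5] ⟨i / 2 % 5, by omega⟩
  have : ∀ w, vev x (cw w) = mu w := fun w => by
    induction w with
    | nil => funext j; fin_cases j <;> simp [cw, vev_un, mu, na, nv]
    | cons a w ih =>
      rw [cw, List.foldr_cons, vev_vm, ← cw, ih, vev_lv]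
      funext j; fin_cases j <;> simp [m5, mu, x, na_app, nv_app, Nat.mul_add_div]
  have z : vev x (cw w) 2 = vev x (cw w) 4 := span_induction (p := fun y _ => y 2 = y 4) (by
    simp only [List.mem_map]
    rintro _ ⟨_, ⟨w, b, rfl⟩, rfl⟩
    simp only [this, mu, a w b]
    rfl) rfl (by simp +contextual) (by simp +contextual) (sound k (gn_iff.1 b) x)
  exact List.map_injective_iff.2 he (nv_inj _ _ (by simpa [this, mu] using z))

end Pool.Agent.H.MP_8ee1cf_lc
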