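import Pool.Agent.H.MP_8ee1cf_lc.A
import Pool.Agent.Lib.helper21.CPred

set_option autoImplicit false

namespace Pool.Agent.H.MP_8ee1cf_lc

open Pool.Agent.Lib.helper4.SigLP Pool.Agent.Lib.PR Submodule Sum
open Pool.Agent.H.MP_c77619_lc (Vc vev m5 vm vev_vm vev_sub Mem cb Tb gg sc tp PP fg s_mem p_gg)

inductive Th (G : Gr) (N : ℕ) : ℕ → Bool → List (ℕ ⊕ ℕ) → Vc → Prop
  | nil {t b} : Th G N t b [] un
  | ter {t b a α u} : a < N → Th G N t b α u → Th G N t b (inr a :: α) (vm (lv a) u)
  | reg {f B i α u} : B < N → i < 5 → Th G N (f + 1) true α u → Th G N (f + 1) true (inl B :: α) (vm (vv (5 * B + i)) u)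
  | nt {t B α v u} : Th G N t false [inl B] v → Th G N t false α u → Th G N t false (inl B :: α) (vm v u)
  | zero {A t} : Th G N t false [inl A] []
  | r1 {A α t u} : (A, α) ∈ G.2.1 → Th G N t false α u → Th G N t false [inl A] u
  | r2 {A B f t u} {s : ℕ → Vc} : (A, B, f) ∈ G.2.2.1 → Th G N (f + 1) false [inl B] u →
      (∀ m, Th G N t false [inl (m / 5)] (s m)) →
      Th G N t false [inl A] (u.map (sub (sb fun i => (s (i / 5)).getD (i % 5) [])))
  | r3 {A f α u} : (A, f, α) ∈ G.2.2.2 → Th G N (f + 1) true α u → Th G N (f + 1) false [inl A] u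

variable {G : Gr} {N : ℕ}

def om (x : ℕ → ℚ) (o : Option (List ℕ)) : Fin 5 → ℚ := o.elim 0 fun w => vev x (cw w)

theorem om_m5 (x o o') : m5 (om x o) (om x o') = om x (Option.map₂ (· ++ ·) o o') := by
  obtain _ | _ := o <;> obtain _ | _ := o' <;> simp [om, cw_app] <;> funext j <;> fin_cases j <;> simp [m5]

theorem th_sem {t b α u} (a : Th G N t b α u) : ∀ γ (W : ℕ → Option (List ℕ)), tp γ = t →
    (∀ m w, W m = some w → Gn G [inl (m / 5, γ.tail)] w) → ∃ o : Option (List ℕ),
      (∀ w, o = some w → Gn G (att (bif b then γ.tail else γ) α) w) ∧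
      ∀ x, (γ ≠ [] → ∀ m, vev x (vv m) = om x (W m)) → vev x u = om x o := by
  have ap : ∀ {u v o o'}, (∀ w, o = some w → Gn G u w) → (∀ w, o' = some w → Gn G v w) →
      ∀ w, Option.map₂ (· ++ ·) o o' = some w → Gn G (u ++ v) w := fun a b w e => by
    obtain ⟨x, y, c, d, rfl⟩ := Option.mem_map₂_iff.1 e
    exact (a x c).app (b y d)
  induction a with
  | nil => exact fun _ _ _ _ => ⟨some [], by rintro _ ⟨⟩; exact .nil, fun _ _ => rfl⟩
  | @ter _ _ c _ _ _ _ a =>
    intro γ W e k
    obtain ⟨o, a, b⟩ := a γ W e k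
    exact ⟨_, ap (o := some [c]) (by rintro _ ⟨⟩; exact .ter .nil) a, fun x l => by
      rw [vev_vm, b x l, ← om_m5]; simp [om, cw, vev_vm, vev_un, m5_un]⟩
  | @reg _ B i _ _ _ l _ a =>
    intro γ W e k
    obtain ⟨o, a, b⟩ := a γ W e k
    have := k (5 * B + i)
    rw [show (5 * B + i) / 5 = B by omega] at this
    exact ⟨_, ap this a, fun x l => by rw [vev_vm, b x l, ← om_m5, l (by rintro rfl; cases e)]⟩
  | nt _ _ a c =>
    intro γ W e k
    obtain ⟨o, a, b⟩ := a γ W e k
    obtain ⟨o', c, d⟩ := c γ W e k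
    exact ⟨_, ap a c, fun x l => by rw [vev_vm, b x l, d x l, om_m5]⟩
  | zero => exact fun _ _ _ _ => ⟨none, by simp, fun _ _ => rfl⟩
  | r1 r _ a => exact fun γ W e k => (a γ W e k).imp fun o a => ⟨fun w e => .one (.inl ⟨_, r, rfl⟩) (a.1 w e), a.2⟩
  | @r2 _ _ f _ _ s r _ _ a b =>
    intro γ W e k
    choose W' b c using fun m => b m γ W e k
    obtain ⟨o, a, d⟩ := a (f :: γ) W' rfl b
    have z : ∀ x o, om (fun i => ev x (sb (fun i => (s (i / 5)).getD (i % 5) []) i)) o = om x o := by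
      rintro x (_ | w)
      exacts [rfl, cw_congr (by simp [sb]) w]
    refine ⟨o, fun w e => .one (.inr (.inl ⟨_, _, r, rfl⟩)) (a w e), fun x l => ?_⟩
    rw [vev_sub, d _ fun _ m => ?_, z]
    rw [z, ← c m x l, vev_vv]
    funext j
    simp [sb, vev, Nat.mul_add_div, Nat.div_eq_of_lt j.2, Nat.mod_eq_of_lt j.2]
  | r3 r _ a =>
    rintro (_ | ⟨f, τ⟩) W ⟨⟩ k
    exact (a _ W rfl k).imp fun o a => ⟨fun w e => .one (.inr (.inr ⟨_, _, _, r, rfl, rfl⟩)) (a.1 w e), a.2⟩

theorem th_P {t b α u} (a : Th G N t b α u) : ∀ j, (fun x => ev x (u.getD j [])) ∈ PP (50 * N) := by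
  have gd : ∀ u : Vc, (∀ p ∈ u, (fun x => ev x p) ∈ PP (50 * N)) → ∀ j, (fun x => ev x (u.getD j [])) ∈ PP (50 * N) :=
    fun u a j => by
      by_cases l : j < u.length
      · exact a _ (by simp [l])
      · rw [List.getD_eq_default _ _ (not_lt.1 l)]
        exact zero_mem _
  have va : ∀ i < 50 * N, (fun x => ev x [[i]]) ∈ PP (50 * N) := fun i l => Subring.subset_closure ⟨i, l, by simp⟩
  have pm : ∀ u v : Vc, (∀ j, (fun x => ev x (u.getD j [])) ∈ PP (50 * N)) →
      (∀ j, (fun x => ev x (v.getD j [])) ∈ PP (50 * N)) → ∀ j, (fun x => ev x ((vm u v).getD j [])) ∈ PP (50 * N) :=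
    fun u v a b => gd _ (by
      have := fun i j => mul_mem (a i) (b j)
      simp only [vm, List.forall_mem_cons, ev_mul, ev_app]
      exact ⟨this _ _, this _ _, add_mem (this _ _) (this _ _), this _ _, add_mem (this _ _) (this _ _), by simp⟩)
  induction a with
  | nil => exact gd _ (by simpa [un] using ⟨one_mem _, zero_mem _, one_mem _, zero_mem _⟩)
  | ter l _ a => exact pm _ _ (gd _ (List.forall_mem_map.2 fun j e => va _ (by simp at e; omega))) a
  | reg l l' _ a => exact pm _ _ (gd _ (List.forall_mem_map.2 fun j e => va _ (by simp at e; omega))) a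
  | nt _ _ a b => exact pm _ _ a b
  | zero => exact gd _ (by simp)
  | r1 _ _ a => exact a
  | r3 _ _ a => exact a
  | @r2 _ _ f _ u s r _ _ a b =>
    intro j
    let φ := fun i (x : ℕ → ℚ) => ev x (sb (fun i => (s (i / 5)).getD (i % 5) []) i)
    have : ∀ ψ ∈ PP (50 * N), (fun x => ψ fun i => φ i x) ∈ PP (50 * N) := fun ψ c => by
      induction c using Subring.closure_induction with
      | mem _ c =>
        obtain ⟨i, l, rfl⟩ := c
        simp only [φ, sb]
        split_ifs
        exacts [va i l, b _ _]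
      | zero => exact zero_mem _
      | one => exact one_mem _
      | add _ _ _ _ a b => exact add_mem a b
      | neg _ _ a => exact neg_mem a
      | mul _ _ _ _ a b => exact mul_mem a b
    exact Set.mem_of_eq_of_mem (funext fun x => (congrArg _ (List.getD_map (d := []) u (sub _))).trans (ev_sub ..))
      (this _ (a j))

theorem th_pr {t b ge α} (k : ∀ B ∈ α.map (Sum.elim id id), B < N)
    (a : ∀ B < N, ∀ v ∈ ge B, ∀ α u, Th G N t b α u → Th G N t b (inl B :: α) (vm v u)) :
    ∀ u ∈ pr ge α, Th G N t b α u := by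
  induction α with
  | nil => simpa [pr] using .nil
  | cons c α ih =>
    intro u e
    obtain ⟨v, e1, e2⟩ := List.mem_flatMap.1 e
    obtain ⟨u, e', rfl⟩ := List.mem_map.1 e2
    obtain ⟨k1, k2⟩ := List.forall_mem_cons.1 k
    obtain B | c := c
    exacts [a B k1 v e1 _ _ (ih k2 u e'), List.mem_singleton.1 e1 ▸ .ter k1 (ih k2 u e')]

theorem complete (G : Gr) : ∃ F, (∀ w ∈ F, w ∈ lang G) ∧ ∃ T N n, Cert G F T N n := by
  obtain ⟨N, n0⟩ := (List.finite_toSet (G.1 :: G.2.1.flatMap (fun r => r.1 :: r.2.map (Sum.elim id id)) ++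
    G.2.2.1.flatMap (fun r => [r.1, r.2.2]) ++
    G.2.2.2.flatMap fun r => r.1 :: r.2.1 :: r.2.2.map (Sum.elim id id))).bddAbove
  simp only [upperBounds, Set.mem_ofPred_eq, ← Nat.lt_succ_iff] at n0
  generalize N.succ = N at n0
  simp only [List.forall_mem_append, List.forall_mem_cons, List.forall_mem_flatMap] at n0
  obtain ⟨⟨⟨n0, n1⟩, n2⟩, n3⟩ := n0
  choose L L1 L2 using fun A t => fg fun u (a : Th G N t false [inl A] u) => th_P a
  let T : Tb := (List.range N).map fun A => (List.range (N + 1)).map (L A)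
  have g1 : ∀ A < N, ∀ t < N + 1, gg T A t = L A t := fun A a t b => by simp [gg, T, a, b]
  have g2 : ∀ A, ∀ t < N + 1, ∀ u ∈ gg T A t, Th G N t false [inl A] u := fun A t b u => by
    by_cases a : A < N
    · exact g1 A a t b ▸ L1 A t u
    · simp [gg, T, a]
  obtain ⟨n, n4⟩ : ∃ n, ∀ A < N, ∀ t < N + 1, (L A t).length < n := ⟨_, fun A a t b => Nat.lt_succ_of_le
    ((Finset.single_le_sum (f := fun t => (L A t).length) (by simp) (Finset.mem_range.2 b)).trans
      (Finset.single_le_sum (f := fun A => ∑ t ∈ .range (N + 1), (L A t).length) (by simp) (Finset.mem_range.2 a)))⟩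
  choose! o o1 o2 using fun u a => th_sem (g2 G.1 0 (by omega) u a) [] (fun _ => none) rfl (by simp)
  refine ⟨(gg T G.1 0).filterMap o, fun w a => ?_, T, N, n, fun A a t b => g1 A a t b ▸ n4 A a t b, fun u a => ?_,
    fun r a t b u c => ?_, fun r a => ⟨(n2 r a).2.1, fun t b u c d _ => ?_⟩, fun r a => ⟨(n3 r a).2.2, fun u c => ?_⟩⟩
  · obtain ⟨u, a, b⟩ := List.mem_filterMap.1 a
    exact gn_iff.2 (o1 u a w b)
  · have := fun x j l => congrFun (o2 u a x (by simp)) ⟨j, l⟩
    cases e : o u with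
    | none => exact ⟨[], by simp, fun j l x => by simpa [cb, e, om, vev] using this x j l⟩
    | some w => exact ⟨[([[]], [], cw w)], by simpa using ⟨w, ⟨u, a, e⟩, rfl⟩, fun j l x => by
        simpa [cb, e, om, vev] using this x j l⟩
  · exact g1 _ (n1 r a).1 t b ▸ L2 _ _ _ (.r1 a (th_pr (n1 r a).2 (fun B _ v e _ _ => .nt (g2 _ _ b v e)) u c))
  · refine g1 _ (n2 r a).1 t b ▸ L2 _ _ _ (.r2 (s := fun m => (gg T (m / 5) t).getD (d / n ^ m % n) []) a
      (g2 _ _ (by simpa using (n2 r a).2.1) u c) fun m => ?_)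
    rw [List.getD_eq_getElem?_getD]
    cases e : (gg T (m / 5) t)[d / n ^ m % n]? with
    | none => exact .zero
    | some v => exact g2 _ _ b v (List.mem_of_getElem? e)
  · refine g1 _ (n3 r a).1 _ (Nat.succ_lt_succ (n3 r a).2.1) ▸ L2 _ _ _ (.r3 a (th_pr (n3 r a).2.2 (fun B l v e _ _ => ?_) u c))
    obtain ⟨i, e', rfl⟩ := List.mem_map.1 e
    exact .reg l (List.mem_range.1 e')

attribute [local irreducible] Primrec

section
variable {α β γ σ : Type} [Primcodable α] [Primcodable β] [Primcodable γ] [Primcodable σ]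

@[fun_prop] theorem p_elim {f : α → β → σ} {g : α → γ → σ} {y : α → β ⊕ γ} (a : Primrec fun z : α × β => f z.1 z.2)
    (b : Primrec fun z : α × γ => g z.1 z.2) (c : Primrec y) : Primrec fun x => Sum.elim (f x) (g x) (y x) :=
  (Primrec.sumCasesOn c a b).of_eq fun x => by cases y x <;> rfl
@[fun_prop] theorem p_vm {u v : α → Vc} (a : Primrec u) (b : Primrec v) : Primrec fun x => vm (u x) (v x) := by
  unfold vm; fun_prop
@[fun_prop] theorem p_lv {u : α → ℕ} (a : Primrec u) : Primrec fun x => lv (u x) := by unfold lv; fun_prop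
@[fun_prop] theorem p_pr {ge : α → ℕ → List Vc} {u : α → _} (a : Primrec fun z : α × ℕ => ge z.1 z.2) (b : Primrec u) :
    Primrec fun x => pr (ge x) (u x) := by unfold pr; fun_prop
@[fun_prop] theorem p_att {s : α → _} {u : α → _} (a : Primrec s) (b : Primrec u) : Primrec fun x => att (s x) (u x) := by
  unfold att Sum.map Function.comp id; fun_prop

theorem s_cert {G : α → _} {F : α → _} {N n : α → _} {T : α → _} (_ : Primrec G) (_ : Primrec F) (_ : Primrec T)
    (_ : Primrec N) (_ : Primrec n) : Sig fun x => Cert (G x) (F x) (T x) (N x) (n x) := by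
  unfold Cert
  refine .and (.prim (by fun_prop)) ?_
  repeat' with_reducible first
    | apply Sig.ball | apply Sig.blt | apply s_mem | apply Sig.and
  all_goals
    try apply Sig.prim
    try unfold sb sc
    try unfold vv
    try unfold cw
    try unfold id
    fun_prop

theorem Sig.choice [Inhabited β] {R : α → β → Prop} (h : Sig fun z : α × β => R z.1 z.2) (h' : ∀ a, ∃ b, R a b) :
    ∃ f : α → β, Computable f ∧ ∀ a, R a (f a) := by
  obtain ⟨q, hq, e⟩ := h
  classical
  have k : ∀ a, ∃ n : ℕ, q (a, (Encodable.decode n.unpair.1).getD default) n.unpair.2 := fun a => by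
    obtain ⟨b, c⟩ := h' a
    obtain ⟨t, c⟩ := (e (a, b)).1 c
    exact ⟨(Encodable.encode b).pair t, by simpa⟩
  have a := Computable.find (Lib.helper21.CPred.cprim (pred (hq.comp (g := fun z : α × ℕ =>
      ((z.1, (Encodable.decode z.2.unpair.1).getD default), z.2.unpair.2)) (by fun_prop)))) k
  exact ⟨_, (show Primrec fun n : ℕ => (Encodable.decode n.unpair.1).getD default by fun_prop).to_comp.comp a,
    fun a => (e (a, _)).2 ⟨_, Nat.find_spec (k a)⟩⟩

end

theorem s_lang : Sig fun z : Gr × List ℕ => z.2 ∈ lang z.1 := by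
  have : Sig fun z : Gr × Form × Form => Step z.1 z.2.1 z.2.2 := by
    unfold Step Rw
    repeat' with_reducible first | apply Sig.ex | apply Sig.and | apply Sig.or
    all_goals exact .prim (by fun_prop)
  exact this.rtg.comp (f := fun z : Gr × List ℕ => (z.1, [.inl (z.1.1, [])], z.2.map .inr)) (by fun_prop)

end Pool.Agent.H.MP_8ee1cf_lc
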